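import Pool.Agent.TBP.StmtsA

set_option autoImplicit false

/-! Row MER of the squad TBP. -/

namespace Pool.Agent.TBP.H5

open Finset

theorem log_one_sub_ge {u : ℝ} (h0 : 0 ≤ u) (h1 : u ≤ 1 / 2) :
    -u - 2 * u ^ 2 ≤ Real.log (1 - u) := by
  have hpos : 0 < 1 - u := by linarith
  have h2 := Real.one_sub_inv_le_log_of_pos hpos
  refine le_trans ?_ h2
  have h3 : 1 - (1 - u)⁻¹ = -u / (1 - u) := by
    field_simp
    ring
  rw [h3, le_div_iff₀ hpos]
  nlinarith [mul_nonneg (mul_nonneg h0 h0) (by linarith : (0 : ℝ) ≤ 1 - 2 * u)]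

theorem sum_sq_le (w : ℕ) : ∑ p ∈ w.primesBelow, (1 : ℝ) / (p : ℝ) ^ 2 ≤ 1 := by
  by_cases hw : 1 ≤ w
  · have h1 : ∑ p ∈ w.primesBelow, (1 : ℝ) / (p : ℝ) ^ 2 ≤ ∑ i ∈ Ioc 1 w, ((i : ℝ) ^ 2)⁻¹ := by
      have h2 : ∑ p ∈ w.primesBelow, (1 : ℝ) / (p : ℝ) ^ 2 =
          ∑ p ∈ w.primesBelow, ((p : ℝ) ^ 2)⁻¹ := Finset.sum_congr rfl fun p _ => one_div _
      rw [h2]
      refine Finset.sum_le_sum_of_subset_of_nonneg ?_ fun i _ _ => by positivity
      intro p hp
      rw [Nat.mem_primesBelow] at hp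
      rw [mem_Ioc]
      exact ⟨hp.2.one_lt, hp.1.le⟩
    have h3 := sum_Ioc_inv_sq_le_sub (α := ℝ) one_ne_zero hw
    have h4 : (0 : ℝ) ≤ ((w : ℕ) : ℝ)⁻¹ := by positivity
    have h5 : ((1 : ℕ) : ℝ)⁻¹ = 1 := by simp
    rw [h5] at h3
    linarith
  · have : w = 0 := by omega
    subst this
    simp

theorem lower (w : ℕ) (hw : 2 ≤ w) :
    Real.log (Real.log w) - 2 ≤ ∑ p ∈ w.primesBelow, (1 : ℝ) / p := by
  have hlw : 0 < Real.log w := Real.log_pos (by exact_mod_cast (by omega : 1 < w))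
  have h1 := Pool.Agent.Common_Sieve.mertens_prod w hw
  have hp : ∀ p ∈ w.primesBelow, (0 : ℝ) < 1 - 1 / p := by
    intro p hp
    have h2 : (2 : ℝ) ≤ p := by exact_mod_cast (Nat.mem_primesBelow.1 hp).2.two_le
    have h3 : (1 : ℝ) / p ≤ 1 / 2 := one_div_le_one_div_of_le (by norm_num) h2
    linarith
  have h2 : ∑ p ∈ w.primesBelow, Real.log (1 - (1 : ℝ) / p) ≤ -Real.log (Real.log w) := by
    rw [← Real.log_prod fun p hp' => (hp p hp').ne', ← Real.log_inv, ← one_div]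
    exact Real.log_le_log (Finset.prod_pos hp) h1
  have h3 : ∑ p ∈ w.primesBelow, (-((1 : ℝ) / p) - 2 * ((1 : ℝ) / p) ^ 2) ≤
      ∑ p ∈ w.primesBelow, Real.log (1 - (1 : ℝ) / p) := by
    refine Finset.sum_le_sum fun p hp' => log_one_sub_ge (by positivity) ?_
    have h2 : (2 : ℝ) ≤ p := by exact_mod_cast (Nat.mem_primesBelow.1 hp').2.two_le
    exact one_div_le_one_div_of_le (by norm_num) h2
  rw [Finset.sum_sub_distrib, Finset.sum_neg_distrib, ← Finset.mul_sum] at h3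
  have h4 : ∑ p ∈ w.primesBelow, ((1 : ℝ) / p) ^ 2 ≤ 1 := by
    refine le_trans (le_of_eq ?_) (sum_sq_le w)
    refine Finset.sum_congr rfl fun p _ => ?_
    rw [div_pow, one_pow]
  linarith

theorem mer : MerStmt := by
  obtain ⟨C, hC⟩ := Pool.Agent.Common_Mertens.sum_inv_le
  refine ⟨max 0 (C + 3), le_max_left _ _, ?_⟩
  intro w x hw hwx
  have hw1 : (1 : ℝ) < w := by exact_mod_cast (by omega : 1 < w)
  have hx1 : (1 : ℝ) < x := by exact_mod_cast (by omega : 1 < x)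
  have hlw : 0 < Real.log w := Real.log_pos hw1
  have hlx : 0 < Real.log x := Real.log_pos hx1
  have h1 := hC x (by omega)
  have h2 := lower w hw
  have h3 : ∑ p ∈ w.primesBelow, (1 : ℝ) / p + ∑ p ∈ (Ioc w x).filter Nat.Prime, (1 : ℝ) / p ≤
      ∑ p ∈ Nat.primesLE x, (1 : ℝ) / p := by
    rw [← Finset.sum_union]
    · refine Finset.sum_le_sum_of_subset_of_nonneg ?_ fun i _ _ => by positivity
      intro p hp
      rw [Nat.mem_primesLE]
      rcases Finset.mem_union.1 hp with h | h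
      · rw [Nat.mem_primesBelow] at h
        exact ⟨by omega, h.2⟩
      · rw [mem_filter, mem_Ioc] at h
        exact ⟨h.1.2, h.2⟩
    · rw [Finset.disjoint_left]
      intro p hp hp'
      rw [Nat.mem_primesBelow] at hp
      rw [mem_filter, mem_Ioc] at hp'
      omega
  have h4 : Real.log (Real.log ((x : ℝ) + 1)) ≤ Real.log (Real.log x) + 1 := by
    have h5 : Real.log ((x : ℝ) + 1) ≤ 2 * Real.log x := by
      have h6 : Real.log ((x : ℝ) + 1) ≤ Real.log ((x : ℝ) ^ 2) := by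
        refine Real.log_le_log (by linarith) ?_
        have : (2 : ℝ) ≤ x := by exact_mod_cast (by omega : 2 ≤ x)
        nlinarith
      rw [Real.log_pow] at h6
      exact_mod_cast h6
    have h7 : 0 < Real.log ((x : ℝ) + 1) := Real.log_pos (by linarith)
    have h8 := Real.log_le_log h7 h5
    rw [Real.log_mul (by norm_num) hlx.ne'] at h8
    have h9 : Real.log 2 ≤ 1 := by
      have := Real.log_two_lt_d9
      linarith
    linarith
  rw [Real.log_div hlx.ne' hlw.ne']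
  have h10 := le_max_right 0 (C + 3)
  linarith

end Pool.Agent.TBP.H5
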